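import Pool.Agent.Q287.CV.Stm

/-!
# Project CV: FARR and PARM
-/

set_option autoImplicit false

namespace Q222.CV

open Q287.CV

open Finset

theorem harm_log (a : ℕ) (ha : 1 ≤ a) (n : ℕ) (han : a ≤ n) :
    Real.log ((n : ℝ) / a) ≤ ∑ l ∈ Finset.Ico a n, 1 / (l : ℝ) := by
  have ha' : (0 : ℝ) < a := by exact_mod_cast ha
  induction n, han using Nat.le_induction with
  | base => simp [div_self ha'.ne']
  | succ n hn ih =>
    rw [Finset.sum_Ico_succ_top hn]
    have hn' : (0 : ℝ) < n := lt_of_lt_of_le ha' (by exact_mod_cast hn)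
    have h1 : (((n + 1 : ℕ) : ℝ)) / a = ((n : ℝ) / a) * (1 + 1 / n) := by
      push_cast; field_simp
    rw [h1, Real.log_mul (by positivity) (by positivity)]
    have h2 : Real.log (1 + 1 / (n : ℝ)) ≤ 1 / n := by
      have := Real.log_le_sub_one_of_pos (show (0 : ℝ) < 1 + 1 / n by positivity)
      linarith
    linarith

theorem sq_sum (a : ℕ) (ha : 1 ≤ a) (n : ℕ) (han : a ≤ n) :
    ∑ l ∈ Finset.Ico a n, 1 / (l : ℝ) ^ 2 ≤ 2 / (a : ℝ) - 2 / (n : ℝ) := by
  have ha' : (0 : ℝ) < a := by exact_mod_cast ha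
  induction n, han using Nat.le_induction with
  | base => simp
  | succ n hn ih =>
    rw [Finset.sum_Ico_succ_top hn]
    have hn1 : (1 : ℝ) ≤ n := by exact_mod_cast ha.trans hn
    have h1 : 1 / (n : ℝ) ^ 2 ≤ 2 / n - 2 / ((n + 1 : ℕ) : ℝ) := by
      push_cast
      rw [div_sub_div _ _ (by positivity) (by positivity), div_le_div_iff₀ (by positivity) (by positivity)]
      nlinarith
    linarith

theorem t_FARR : S_FarR := by
  intro N L0 i0 κ ρ lam μ q P hκ hρ hρ1 hlam hμ hN hL0 hLi hq hP hsum hlow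
  have hlam0 : 0 < lam := hρ.trans_le hlam
  set Λ : ℝ := lam / ρ with hΛ
  have hΛ1 : 1 ≤ Λ := by rw [hΛ, le_div_iff₀ hρ]; linarith
  have hL0' : (1 : ℝ) ≤ L0 := le_trans (by nlinarith) hL0
  have hL0n : 1 ≤ L0 := by exact_mod_cast hL0'
  set C : ℝ := lam / κ with hC
  have hC0 : 0 < C := by positivity
  set Lg : ℝ := Real.log (((i0 : ℝ) + 1) / L0) with hLg
  have hLg0 : 0 < Lg := by
    apply Real.log_pos
    rw [lt_div_iff₀ (by linarith)]
    have : (L0 : ℝ) ≤ i0 := by exact_mod_cast hLi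
    linarith
  have hN1 : ((N : ℝ) + 1) * ρ ≤ 2 := by nlinarith
  -- lower bound for each index
  have key : ∀ i ∈ Finset.Icc i0 N, Λ / 4 * Lg * q i ≤
      ∑ l ∈ Finset.Ico L0 (i + 1), P i (i - l) + 10 * C + ((N : ℝ) + 1) ^ 2 * μ := by
    intro i hi
    rw [Finset.mem_Icc] at hi
    have hqi := hq i hi.2
    have hLi' : L0 ≤ i + 1 := by omega
    have h1 : ∑ l ∈ Finset.Ico L0 (i + 1), (Λ / 4 * q i * (1 / (l : ℝ)) -
        5 * Λ ^ 2 * C * (1 / (l : ℝ) ^ 2) - ((N : ℝ) + 1) * μ) ≤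
        ∑ l ∈ Finset.Ico L0 (i + 1), P i (i - l) := by
      apply Finset.sum_le_sum
      intro l hl
      rw [Finset.mem_Ico] at hl
      have hl0 : (0 : ℝ) < l := by
        have : 0 < l := by omega
        exact_mod_cast this
      refine le_trans (le_of_eq ?_) (hlow i l hi.2 hl.1 (by omega))
      rw [hC]
      field_simp
      ring
    rw [Finset.sum_sub_distrib, Finset.sum_sub_distrib, ← Finset.mul_sum, ← Finset.mul_sum,
      Finset.sum_const, Nat.card_Ico, nsmul_eq_mul] at h1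
    have h2 := harm_log L0 hL0n (i + 1) hLi'
    have h3 := sq_sum L0 hL0n (i + 1) hLi'
    have h4 : Lg ≤ Real.log (((i + 1 : ℕ) : ℝ) / L0) := by
      apply Real.log_le_log (by positivity)
      push_cast
      have : (i0 : ℝ) ≤ i := by exact_mod_cast hi.1
      gcongr
    have h5 : ∑ l ∈ Finset.Ico L0 (i + 1), 1 / (l : ℝ) ^ 2 ≤ 2 / (L0 : ℝ) := by
      have : (0 : ℝ) ≤ 2 / ((i + 1 : ℕ) : ℝ) := by positivity
      linarith
    have h6 : Λ ^ 2 * (2 / (L0 : ℝ)) ≤ 2 := by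
      rw [mul_div_assoc', div_le_iff₀ (by linarith)]
      nlinarith
    have h7 : 5 * Λ ^ 2 * C * ∑ l ∈ Finset.Ico L0 (i + 1), 1 / (l : ℝ) ^ 2 ≤ 10 * C := by
      have h8 : 5 * Λ ^ 2 * C * ∑ l ∈ Finset.Ico L0 (i + 1), 1 / (l : ℝ) ^ 2 ≤
          5 * Λ ^ 2 * C * (2 / (L0 : ℝ)) := by gcongr
      have h9 : 5 * Λ ^ 2 * C * (2 / (L0 : ℝ)) = 5 * C * (Λ ^ 2 * (2 / (L0 : ℝ))) := by ring
      nlinarith
    have h8 : ((i + 1 - L0 : ℕ) : ℝ) * (((N : ℝ) + 1) * μ) ≤ ((N : ℝ) + 1) ^ 2 * μ := by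
      have : ((i + 1 - L0 : ℕ) : ℝ) ≤ (N : ℝ) + 1 := by
        have : i + 1 - L0 ≤ N + 1 := by omega
        exact_mod_cast this
      have h10 : 0 ≤ ((N : ℝ) + 1) * μ := by positivity
      nlinarith
    have h9 : Λ / 4 * Lg * q i ≤ Λ / 4 * q i * ∑ l ∈ Finset.Ico L0 (i + 1), 1 / (l : ℝ) := by
      have : Λ / 4 * Lg * q i = Λ / 4 * q i * Lg := by ring
      rw [this]
      apply mul_le_mul_of_nonneg_left (h4.trans h2) (by positivity)
    linarith
  -- the double sum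
  have hdouble : ∑ i ∈ Finset.Icc i0 N, ∑ l ∈ Finset.Ico L0 (i + 1), P i (i - l) ≤
      ((N : ℝ) + 1) * (5 * C) := by
    have h1 : ∑ i ∈ Finset.Icc i0 N, ∑ l ∈ Finset.Ico L0 (i + 1), P i (i - l) ≤
        ∑ i ∈ Finset.range (N + 1), ∑ k ∈ Finset.range (N + 1), P i k := by
      refine le_trans (Finset.sum_le_sum (fun i hi => ?_))
        (Finset.sum_le_sum_of_subset_of_nonneg
          ?_ ?_)
      · rw [Finset.mem_Icc] at hi
        have himg : ∑ l ∈ Finset.Ico L0 (i + 1), P i (i - l) =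
            ∑ k ∈ (Finset.Ico L0 (i + 1)).image (fun l => i - l), P i k := by
          rw [Finset.sum_image]
          intro a ha b hb hab
          simp only [Finset.coe_Ico, Set.mem_Ico] at ha hb
          simp only at hab
          omega
        rw [himg]
        apply Finset.sum_le_sum_of_subset_of_nonneg
        · intro k hk
          rw [Finset.mem_image] at hk
          obtain ⟨l, hl, rfl⟩ := hk
          rw [Finset.mem_range]; omega
        · intro k _ _; exact hP i k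
      · intro i hi
        rw [Finset.mem_Icc] at hi
        rw [Finset.mem_range]; omega
      · intro i _ _
        exact Finset.sum_nonneg (fun k _ => hP i k)
    refine h1.trans ?_
    rw [Finset.sum_comm]
    refine le_trans (Finset.sum_le_sum (g := fun _ => 5 * C) (fun k hk => ?_)) ?_
    · rw [Finset.mem_range] at hk
      refine (hsum k (by omega)).trans (le_of_eq ?_)
      rw [hC]; ring
    · rw [Finset.sum_const, Finset.card_range, nsmul_eq_mul]
      push_cast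
      exact le_rfl
  have hsumkey := Finset.sum_le_sum key
  rw [← Finset.mul_sum, Finset.sum_add_distrib, Finset.sum_add_distrib, Finset.sum_const,
    Finset.sum_const, nsmul_eq_mul, nsmul_eq_mul] at hsumkey
  have hcard : (((Finset.Icc i0 N).card : ℕ) : ℝ) ≤ (N : ℝ) + 1 := by
    rw [Nat.card_Icc]
    have : N + 1 - i0 ≤ N + 1 := by omega
    exact_mod_cast this
  have hc1 : (((Finset.Icc i0 N).card : ℕ) : ℝ) * (10 * C) ≤ ((N : ℝ) + 1) * (10 * C) := by
    gcongr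
  have hc2 : (((Finset.Icc i0 N).card : ℕ) : ℝ) * (((N : ℝ) + 1) ^ 2 * μ) ≤
      ((N : ℝ) + 1) * (((N : ℝ) + 1) ^ 2 * μ) := by
    gcongr
  have htot : Λ / 4 * Lg * ∑ i ∈ Finset.Icc i0 N, q i ≤
      ((N : ℝ) + 1) * (15 * C) + ((N : ℝ) + 1) ^ 3 * μ := by
    nlinarith
  have hNr : (N : ℝ) + 1 ≤ 2 / ρ := by
    rw [le_div_iff₀ hρ]; exact hN1
  have hb1 : ((N : ℝ) + 1) * (15 * C) ≤ 30 * Λ / κ := by
    calc ((N : ℝ) + 1) * (15 * C) ≤ 2 / ρ * (15 * C) := by gcongr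
      _ = 30 * Λ / κ := by rw [hC, hΛ]; field_simp; ring
  have hb2 : ((N : ℝ) + 1) ^ 3 * μ ≤ 8 * μ / ρ ^ 3 := by
    calc ((N : ℝ) + 1) ^ 3 * μ ≤ (2 / ρ) ^ 3 * μ := by gcongr
      _ = 8 * μ / ρ ^ 3 := by field_simp; ring
  have hfin : Λ / 4 * Lg * ∑ i ∈ Finset.Icc i0 N, q i ≤
      Λ / 4 * (120 / κ + 32 * μ / ρ ^ 3) := by
    have h1 : 8 * μ / ρ ^ 3 ≤ Λ * (8 * μ / ρ ^ 3) := by
      have : 0 ≤ 8 * μ / ρ ^ 3 := by positivity
      nlinarith
    have h2 : Λ / 4 * (120 / κ + 32 * μ / ρ ^ 3) = 30 * Λ / κ + Λ * (8 * μ / ρ ^ 3) := by ring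
    rw [h2]
    linarith
  rw [le_div_iff₀ hLg0]
  have hΛ4 : 0 < Λ / 4 := by linarith
  have : Λ / 4 * ((∑ i ∈ Finset.Icc i0 N, q i) * Lg) ≤ Λ / 4 * (120 / κ + 32 * μ / ρ ^ 3) := by
    refine le_trans (le_of_eq ?_) hfin
    ring
  exact le_of_mul_le_mul_left this hΛ4

end Q222.CV
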