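import Pool.Agent.Q287.CV.Stm

/-!
# Project CV: GEO
-/

set_option autoImplicit false

namespace Q222.CV

open Q287.CV

/-- Discrete intermediate value theorem along a walk. -/
theorem walk_ivt {V : Type} (G : SimpleGraph V) (a : V → ℝ)
    (hadj : ∀ x y, G.Adj x y → a x ≤ a y + 1) (c : ℝ) :
    ∀ {u v : V} (_ : G.Walk u v), c - 1 ≤ a u → a v ≤ c → ∃ x, c - 1 ≤ a x ∧ a x ≤ c := by
  intro u v p
  induction p with
  | nil => intro h1 h2; exact ⟨_, h1, h2⟩
  | @cons u u' v h p ih =>
    intro h1 h2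
    by_cases hc : a u ≤ c
    · exact ⟨u, h1, hc⟩
    · push Not at hc
      exact ih (by linarith [hadj u u' h]) h2

theorem t_GEO (h1 : S_Res) (h2 : S_Gr) (h3 : S_Pair) : S_Geo := by
  intro V _ _ G _ hG hcard r K κ ρ e hκ hρ he heρ heκ hρn hκn hfar
  obtain ⟨rsymm, rself, gsymm, gz, gvv, gform, -, -, -, -⟩ := h1 V G hG hcard
  obtain ⟨gnn, -, -, rnn, rtri, radj, -, rn, -, gprod, -, -, -⟩ := h2 V G hG hcard
  have hpair := h3 V G hG hcard
  have hn1 : 1 ≤ nn G := by
    unfold nn
    have : (2 : ℝ) ≤ Fintype.card V := by exact_mod_cast hcard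
    linarith
  have hn0 : 0 < nn G := by linarith
  set n : ℝ := nn G with hn
  have hen : 0 ≤ e * n := by positivity
  have heρn : 8 * (e * n) ≤ ρ * n := by nlinarith
  have heκn : 8 * (e * n) ≤ κ * n := by nlinarith
  -- F1
  have F1 : ∀ x, κ / 2 * n ≤ Rs G x K → Rs G r x + Rs G x K - Rs G r K ≤ 2 * (e * n) := by
    intro x hx
    have h4 := hfar x hx
    rw [gform x r K] at h4
    have h5 : e * Rs G K x ≤ e * n := mul_le_mul_of_nonneg_left (rn K x) he
    rw [rsymm K x] at h4 h5
    linarith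
  -- F2
  have F2 : ∀ x y, κ / 2 * n ≤ Rs G x K → κ / 2 * n ≤ Rs G y K →
      Rs G x y ≤ |Rs G x K - Rs G y K| + 4 * (e * n) := by
    intro x y hx hy
    have h5 : e * Rs G K x ≤ e * n := mul_le_mul_of_nonneg_left (rn K x) he
    have h6 : e * Rs G K y ≤ e * n := mul_le_mul_of_nonneg_left (rn K y) he
    rcases hpair r K x y e (hfar x hx) (hfar y hy) he with h4 | h4
    · rw [gform y x K, rsymm K y] at h4
      rw [rsymm K y] at h6
      have := le_abs_self (Rs G x K - Rs G y K)
      linarith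
    · rw [gform x y K, rsymm K x, rsymm y x] at h4
      rw [rsymm K x] at h5
      have := neg_abs_le (Rs G x K - Rs G y K)
      linarith
  by_cases hall : ∀ y, Rs G y K < κ * n
  · exact Or.inl hall
  right
  push Not at hall
  obtain ⟨y0, hy0⟩ := hall
  have hy0far : κ / 2 * n ≤ Rs G y0 K := by nlinarith
  set R0 : ℝ := Rs G r K with hR0
  have hR0' : κ * n - 2 * (e * n) ≤ R0 := by
    have := F1 y0 hy0far
    have := rnn r y0
    linarith
  have hrfar : κ / 2 * n ≤ Rs G r K := by
    rw [← hR0]; nlinarith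
  have hρn0 : 0 < ρ * n := by positivity
  set N : ℕ := ⌊(R0 - κ * n) / (ρ * n)⌋₊ with hN
  have hNle : ∀ i : ℕ, 1 ≤ i → i ≤ N → (i : ℝ) * (ρ * n) ≤ R0 - κ * n := by
    intro i hi1 hiN
    have hpos : 0 ≤ (R0 - κ * n) / (ρ * n) := by
      by_contra hneg
      push Not at hneg
      have : N = 0 := Nat.floor_of_nonpos hneg.le
      omega
    have h4 : (N : ℝ) ≤ (R0 - κ * n) / (ρ * n) := Nat.floor_le hpos
    have h5 : (i : ℝ) ≤ (R0 - κ * n) / (ρ * n) := le_trans (by exact_mod_cast hiN) h4
    rwa [le_div_iff₀ hρn0] at h5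
  -- the points
  have hpt : ∀ i : ℕ, ∃ x, (i = 0 → x = r) ∧
      (i ≤ N → R0 - i * (ρ * n) - 1 ≤ Rs G x K ∧ Rs G x K ≤ R0 - i * (ρ * n)) := by
    intro i
    by_cases hi : i = 0
    · refine ⟨r, fun _ => rfl, fun _ => ?_⟩
      subst hi
      simp only [Nat.cast_zero, zero_mul, sub_zero]
      exact ⟨by linarith, le_rfl⟩
    · by_cases hiN : i ≤ N
      · have hi1 : 1 ≤ i := by omega
        have hib := hNle i hi1 hiN
        obtain ⟨p⟩ := hG.preconnected r K
        obtain ⟨x, hx1, hx2⟩ := walk_ivt G (fun x => Rs G x K)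
          (fun x y hxy => by
            have h4 := rtri x K y
            have h5 := radj x y hxy
            linarith)
          (R0 - i * (ρ * n)) p (by
            have : (0 : ℝ) ≤ i * (ρ * n) := by positivity
            linarith) (by
            rw [rself K]
            have : 0 < κ * n := by positivity
            linarith)
        exact ⟨x, fun h => absurd h hi, fun _ => ⟨hx1, hx2⟩⟩
      · exact ⟨r, fun h => absurd h hi, fun h => absurd h hiN⟩
  choose z hz0 hz using hpt
  have hzfar : ∀ i ≤ N, κ / 2 * n ≤ Rs G (z i) K := by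
    intro i hi
    by_cases hi0 : i = 0
    · rw [hz0 i hi0]; exact hrfar
    · have h4 := (hz i hi).1
      have h5 := hNle i (by omega) hi
      linarith
  have hdiff : ∀ k i, k < i → i ≤ N →
      ((i : ℝ) - k) * (ρ * n) - 1 ≤ Rs G (z k) K - Rs G (z i) K ∧
      Rs G (z k) K - Rs G (z i) K ≤ ((i : ℝ) - k) * (ρ * n) + 1 := by
    intro k i hki hi
    have h4 := hz i hi
    have h5 := hz k (by omega)
    constructor
    · linarith [h4.2, h5.1]
    · linarith [h4.1, h5.2]
  have hik : ∀ k i : ℕ, k < i → ρ * n ≤ ((i : ℝ) - k) * (ρ * n) := by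
    intro k i hki
    have : (1 : ℝ) ≤ (i : ℝ) - k := by
      have : (k : ℝ) + 1 ≤ i := by exact_mod_cast hki
      linarith
    nlinarith
  have hlow : ∀ k i, k < i → i ≤ N →
      ((i : ℝ) - k) / 2 * (ρ * n) ≤ Rs G (z k) K - Rs G (z i) K := by
    intro k i hki hi
    have h4 := (hdiff k i hki hi).1
    have h5 := hik k i hki
    linarith
  have hlow' : ∀ k i, k < i → i ≤ N → ((i : ℝ) - k) / 2 * (ρ * n) ≤ Rs G (z k) (z i) := by
    intro k i hki hi
    have h4 := hlow k i hki hi
    have h5 := rtri (z k) K (z i)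
    linarith
  refine ⟨N, z, hz0 0 rfl, ?_, hzfar, ?_, ?_, ?_, ?_, ?_⟩
  · by_cases hN0 : N = 0
    · rw [hN0]; simp
    · have h4 := hNle N (by omega) le_rfl
      have h5 : R0 ≤ n := rn r K
      have h6 : (N : ℝ) * ρ * n ≤ 1 * n := by
        have : 0 < κ * n := by positivity
        linarith
      exact le_of_mul_le_mul_right h6 hn0
  · intro k i hki hi
    refine ⟨hlow' k i hki hi, ?_⟩
    have h4 := F2 (z k) (z i) (hzfar k (by omega)) (hzfar i hi)
    have h5 := (hdiff k i hki hi).2
    have h6 := hlow k i hki hi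
    have h7 := hik k i hki
    have h8 : |Rs G (z k) K - Rs G (z i) K| ≤ ((i : ℝ) - k) * (ρ * n) + 1 := by
      rw [abs_of_nonneg]
      · exact h5
      · have : 0 ≤ ((i : ℝ) - k) / 2 * (ρ * n) := by linarith
        linarith
    linarith
  · intro i j hij hj
    have h4 := gprod (z i) r (z j) K
    have h5 := hfar (z i) (hzfar i (by omega))
    have h6 : e * Rs G K (z i) ≤ e * n := mul_le_mul_of_nonneg_left (rn _ _) he
    have h7 : gr G (z i) (z j) K = (Rs G (z j) (z i) + Rs G K (z i) - Rs G (z j) K) / 2 :=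
      gform _ _ _
    have h8 := hlow i j hij hj
    have h9 := rtri (z i) K (z j)
    have h10 : ρ * n / 2 ≤ gr G (z i) (z j) K := by
      rw [h7, rsymm K (z i), rsymm (z j) (z i)]
      have := hik i j hij
      linarith
    have h11 : gr G (z i) r (z j) * (ρ * n / 2) ≤ e * n * Rs G (z j) (z i) := by
      have a1 : gr G (z i) r (z j) * (ρ * n / 2) ≤ gr G (z i) r (z j) * gr G (z i) (z j) K :=
        mul_le_mul_of_nonneg_left h10 (gnn _ _ _)
      have a2 : gr G (z i) r K * Rs G (z j) (z i) ≤ e * n * Rs G (z j) (z i) :=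
        mul_le_mul_of_nonneg_right (h5.trans h6) (rnn _ _)
      linarith
    have h12 : 2 * e / ρ * Rs G (z j) (z i) * (ρ * n / 2) = e * n * Rs G (z j) (z i) := by
      field_simp
    have h13 : 0 < ρ * n / 2 := by positivity
    rw [← h12] at h11
    exact le_of_mul_le_mul_right h11 h13
  · intro i hi
    exact hfar (z i) (hzfar i hi)
  · intro k i hki hi
    rcases hpair r K (z k) (z i) e (hfar _ (hzfar k (by omega))) (hfar _ (hzfar i hi)) he with
      h4 | h4
    · exact h4
    · exfalso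
      rw [gform (z k) (z i) K, rsymm K (z k), rsymm (z i) (z k)] at h4
      have h5 : e * Rs G (z k) K ≤ e * n := mul_le_mul_of_nonneg_left (rn _ _) he
      have h6 := hlow k i hki hi
      have h7 := hlow' k i hki hi
      have h8 := hik k i hki
      have h9 := (hdiff k i hki hi).1
      linarith
  · intro y hy
    have hyfar : κ / 2 * n ≤ Rs G y K := by
      have : 0 < κ * n := by positivity
      linarith
    have hyN : ⌊(R0 - Rs G y K) / (ρ * n)⌋₊ ≤ N := by
      apply Nat.floor_le_floor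
      gcongr
    refine ⟨⌊(R0 - Rs G y K) / (ρ * n)⌋₊, hyN, ?_⟩
    set i : ℕ := ⌊(R0 - Rs G y K) / (ρ * n)⌋₊ with hi
    have h4 := F2 y (z i) hyfar (hzfar i hyN)
    have h5 := hz i hyN
    by_cases hyR : Rs G y K ≤ R0
    · have hpos : 0 ≤ (R0 - Rs G y K) / (ρ * n) := div_nonneg (by linarith) hρn0.le
      have h6 : (i : ℝ) * (ρ * n) ≤ R0 - Rs G y K := by
        have := Nat.floor_le hpos
        rwa [le_div_iff₀ hρn0] at this
      have h7 : R0 - Rs G y K < ((i : ℝ) + 1) * (ρ * n) := by
        have := Nat.lt_floor_add_one ((R0 - Rs G y K) / (ρ * n))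
        rwa [div_lt_iff₀ hρn0] at this
      have h8 : |Rs G y K - Rs G (z i) K| ≤ ρ * n + 1 := by
        rw [abs_le]
        constructor
        · linarith [h5.2]
        · linarith [h5.1]
      linarith
    · push Not at hyR
      have hi0 : i = 0 := by
        rw [hi]
        apply Nat.floor_of_nonpos
        apply div_nonpos_of_nonpos_of_nonneg (by linarith) hρn0.le
      have h6 := F1 y hyfar
      have h7 := rnn r y
      rw [hz0 i hi0] at h4 ⊢
      have h8 : |Rs G y K - Rs G r K| ≤ 2 * (e * n) := by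
        rw [abs_of_nonneg (by linarith)]
        linarith
      linarith

end Q222.CV
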