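import Pool.Agent.Q287.CV.Stm

/-!
# Project CV: LASTL
-/

set_option autoImplicit false
set_option linter.unusedSectionVars false

namespace Q222.CV

open Q287.CV

open MeasureTheory

section

variable {V : Type} [DecidableEq V]

theorem fst_unique {w : ℕ → V} {z : V} {s t : ℕ} (hs : Fst w z s) (ht : Fst w z t) : s = t := by
  rcases lt_trichotomy s t with h | h | h
  · exact absurd hs.1 (ht.2 s h)
  · exact h
  · exact absurd ht.1 (hs.2 t h)

theorem fst_sh {w : ℕ → V} {z : V} {t t' : ℕ} (h : ∀ s < t, w s ≠ z) (h' : Fst (sh t w) z t') :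
    Fst w z (t + t') := by
  refine ⟨h'.1, fun s hs => ?_⟩
  by_cases hst : s < t
  · exact h s hst
  · have := h'.2 (s - t) (by omega)
    unfold sh at this
    rwa [Nat.add_sub_cancel' (by omega)] at this

theorem cnt_eq_zero {w : ℕ → V} {v : V} {t : ℕ} (h : ∀ s < t, w s ≠ v) : cnt w v t = 0 := by
  unfold cnt
  rw [Finset.card_eq_zero, Finset.filter_eq_empty_iff]
  intro s hs
  exact h s (Finset.mem_range.mp hs)

end

section

variable {V : Type} [Fintype V] [DecidableEq V] [MeasurableSpace V] [DiscreteMeasurableSpace V]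

theorem meas_Last (z : ℕ → V) (k : ℕ → ℕ) (K : V) (N i : ℕ) :
    MeasurableSet (Last z k K N i) := by
  have : Last z k K N i = Few (z i) K (k i) ∩ ⋂ j, ⋂ (_ : i < j), ⋂ (_ : j ≤ N),
      (Few (z j) K (k j))ᶜ := by
    ext w
    simp [Last]
  rw [this]
  refine (meas_Few _ _ _).inter (MeasurableSet.iInter fun j => MeasurableSet.iInter fun _ =>
    MeasurableSet.iInter fun _ => (meas_Few _ _ _).compl)

theorem pr_nonneg (G : SimpleGraph V) [DecidableRel G.Adj] (x : V) (A : Set (ℕ → V)) :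
    0 ≤ Pr G x A := measureReal_nonneg

theorem pr_le_one (G : SimpleGraph V) [DecidableRel G.Adj] (x : V) (A : Set (ℕ → V)) :
    Pr G x A ≤ 1 := measureReal_le_one

theorem pr_mono (G : SimpleGraph V) [DecidableRel G.Adj] (x : V) {A B : Set (ℕ → V)}
    (h : A ⊆ B) : Pr G x A ≤ Pr G x B := measureReal_mono h

theorem pr_union (G : SimpleGraph V) [DecidableRel G.Adj] (x : V) (A B : Set (ℕ → V)) :
    Pr G x (A ∪ B) ≤ Pr G x A + Pr G x B := measureReal_union_le _ _

theorem pr_biUnion (G : SimpleGraph V) [DecidableRel G.Adj] (x : V) {ι : Type} (s : Finset ι)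
    (A : ι → Set (ℕ → V)) :
    Pr G x (⋃ i ∈ s, A i) ≤ ∑ i ∈ s, Pr G x (A i) := measureReal_biUnion_finset_le _ _

theorem t_LASTL (h : S_Stop) : S_LastL := by
  intro V _ _ _ _ G _ hG hcard r K N z k l i hli hiN hzK hzi hzli
  set D : ℕ → Set (ℕ → V) := fun t => {w | Fst w (z i) t ∧ (∀ s ≤ t, w s ≠ K) ∧
    (∀ j, i < j → j ≤ N → ∀ s ≤ t, w s ≠ z j) ∧ cnt w (z l) t ≤ k l} with hD
  set B : Set (ℕ → V) := Last z k K N i \ Hb (z l) K with hB
  have hDet : ∀ t, Det t (D t) := by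
    intro t w w' hw hwD
    obtain ⟨a1, a2, a3, a4⟩ := hwD
    refine ⟨det_fst t (z i) w w' hw a1, det_avoid t K w w' hw a2, fun j hj hjN =>
      det_avoid t (z j) w w' hw (a3 j hj hjN), det_cnt t (z l) (fun m => m ≤ k l) w w' hw a4⟩
  have hstop := h V G hG hcard r (z i) D hDet (fun s t hst => by
    rw [Set.disjoint_left]
    intro w hw hw'
    exact hst (fst_unique hw.1 hw'.1)) (fun t w hw => hw.1.1) B
    ((meas_Last z k K N i).diff (meas_Hb _ _))
  refine ⟨Pr G r (⋃ t, D t), Pr G (z i) B, pr_nonneg _ _ _, pr_le_one _ _ _, pr_nonneg _ _ _,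
    pr_le_one _ _ _, ?_, ?_, ?_⟩
  · have hsub : Few (z l) (z i) (k l) ⊆ (⋃ t, D t) ∪ (Hb K (z i) ∪
        ⋃ j ∈ Finset.Ioc i N, Hb (z j) (z i)) := by
      rintro w ⟨t, ht, hc⟩
      by_cases h1 : ∀ s ≤ t, w s ≠ K
      · by_cases h2 : ∀ j, i < j → j ≤ N → ∀ s ≤ t, w s ≠ z j
        · left
          exact Set.mem_iUnion.mpr ⟨t, ht, h1, h2, hc⟩
        · push Not at h2
          obtain ⟨j, hj, hjN, s, hs, hws⟩ := h2
          right; right
          simp only [Set.mem_iUnion, Finset.mem_Ioc]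
          refine ⟨j, ⟨hj, hjN⟩, s, hws, fun s' hs' => ?_⟩
          have hst : s ≠ t := by
            rintro rfl
            exact hzi j hj hjN (hws.symm.trans ht.1)
          exact ht.2 s' (by omega)
      · push Not at h1
        obtain ⟨s, hs, hws⟩ := h1
        right; left
        refine ⟨s, hws, fun s' hs' => ?_⟩
        have hst : s ≠ t := by
          rintro rfl
          exact hzK i hiN (ht.1.symm.trans hws)
        exact ht.2 s' (by omega)
    have h1 := pr_mono G r hsub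
    have h2 := pr_union G r (⋃ t, D t) (Hb K (z i) ∪ ⋃ j ∈ Finset.Ioc i N, Hb (z j) (z i))
    have h3 := pr_union G r (Hb K (z i)) (⋃ j ∈ Finset.Ioc i N, Hb (z j) (z i))
    have h4 := pr_biUnion G r (Finset.Ioc i N) (fun j => Hb (z j) (z i))
    linarith
  · have hsub : Last z k K N i ⊆ B ∪ (Few (z i) K (k i) ∩ Hb (z l) K) := by
      intro w hw
      by_cases h1 : w ∈ Hb (z l) K
      · exact Or.inr ⟨hw.1, h1⟩
      · exact Or.inl ⟨hw, h1⟩
    have h1 := pr_mono G (z i) hsub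
    have h2 := pr_union G (z i) B (Few (z i) K (k i) ∩ Hb (z l) K)
    linarith
  · rw [← hstop]
    apply pr_mono
    rintro w ⟨t, ⟨d1, d2, d3, d4⟩, ⟨⟨t', ht', hc'⟩, hlast⟩, hnot⟩
    have hF : Fst w K (t + t') := fst_sh (fun s hs => d2 s hs.le) ht'
    refine ⟨⟨⟨t + t', hF, ?_⟩, ?_⟩, ⟨t + t', hF, ?_⟩⟩
    · rw [cnt_sh, cnt_eq_zero d1.2, zero_add]; exact hc'
    · rintro j hj hjN ⟨T, hT, hcT⟩
      have : T = t + t' := fst_unique hT hF
      subst this
      apply hlast j hj hjN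
      refine ⟨t', ht', ?_⟩
      rw [cnt_sh] at hcT
      omega
    · rw [cnt_sh]
      have : cnt (sh t w) (z l) t' = 0 := by
        apply cnt_eq_zero
        intro s hs hws
        exact hnot ⟨s, hws, fun s' hs' => ht'.2 s' (by omega)⟩
      omega

end

end Q222.CV
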