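import Pool.Agent.Q287.CV.Stm

/-!
# Project CV: PARM
-/

set_option autoImplicit false

namespace Q222.CV

open Q287.CV

open Filter Topology

theorem t_PARM : S_Parm := by
  intro κ η hκ hη
  set X : ℝ := 960 / (κ * η) with hX
  have hX0 : 0 < X := by positivity
  set C : ℕ := ⌈Real.exp X⌉₊ with hC
  have hC1 : Real.exp X ≤ (C : ℝ) := Nat.le_ceil _
  have hC0 : (1 : ℝ) < C := lt_of_lt_of_le (by rw [Real.one_lt_exp_iff]; exact hX0) hC1
  set K : ℝ := 5 * 1152 ^ 3 * C / κ with hK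
  have ht1 : Tendsto (fun m : ℕ => K * ((m : ℝ) ^ 3 * Real.exp (-(m : ℝ)))) atTop (𝓝 (K * 0)) := by
    exact ((Real.tendsto_pow_mul_exp_neg_atTop_nhds_zero 3).comp
      tendsto_natCast_atTop_atTop).const_mul K
  have ht2 : Tendsto (fun m : ℕ => 64 * Real.exp (-(m : ℝ))) atTop (𝓝 (64 * 0)) := by
    exact (Real.tendsto_exp_neg_atTop_nhds_zero.comp tendsto_natCast_atTop_atTop).const_mul 64
  rw [mul_zero] at ht1 ht2
  have hη8 : 0 < η / 8 := by positivity
  obtain ⟨m, hm1, hm2, hm3⟩ := ((ht1.eventually (gt_mem_nhds hη8)).and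
    ((ht2.eventually (gt_mem_nhds hη8)).and (eventually_ge_atTop 3))).exists
  have hm3' : (3 : ℝ) ≤ m := by exact_mod_cast hm3
  set ρ : ℝ := Real.exp (-(m : ℝ)) with hρ
  have hρ0 : 0 < ρ := Real.exp_pos _
  have hρ1 : 2 * ρ ≤ 1 := by
    have h1 : (m : ℝ) + 1 ≤ Real.exp m := Real.add_one_le_exp _
    have h2 : ρ * Real.exp m = 1 := by
      rw [hρ, ← Real.exp_add]; simp
    nlinarith
  set lam : ℝ := 1152 * m * ρ with hlam
  have hlam0 : 0 < lam := by positivity
  have hlr : lam / ρ = 1152 * m := by rw [hlam]; field_simp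
  set L0 : ℕ := (1152 * m) ^ 2 with hL0
  set i0 : ℕ := L0 * C with hi0
  have hL0c : (L0 : ℝ) = (1152 * m) ^ 2 := by rw [hL0]; push_cast; ring
  have hL00 : (0 : ℝ) < L0 := by rw [hL0c]; positivity
  have hi0c : (i0 : ℝ) = L0 * C := by rw [hi0]; push_cast; ring
  set Lg : ℝ := Real.log (((i0 : ℝ) + 1) / L0) with hLg
  have hLgX : X ≤ Lg := by
    rw [hLg, Real.le_log_iff_exp_le (by positivity)]
    refine hC1.trans ?_
    rw [le_div_iff₀ hL00, hi0c]
    nlinarith
  have hLg0 : 0 < Lg := lt_of_lt_of_le hX0 hLgX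
  set μ : ℝ := min (lam / κ) (min (η * ρ ^ 3 * Lg / 256) (η * ρ ^ 2 / 32)) with hμ
  have hμ0 : 0 < μ := by
    apply lt_min (by positivity)
    apply lt_min (by positivity) (by positivity)
  have hμ1 : μ ≤ lam / κ := min_le_left _ _
  have hμ2 : μ ≤ η * ρ ^ 3 * Lg / 256 := (min_le_right _ _).trans (min_le_left _ _)
  have hμ3 : μ ≤ η * ρ ^ 2 / 32 := (min_le_right _ _).trans (min_le_right _ _)
  refine ⟨ρ, lam, μ, L0, i0, hρ0, hρ1, ?_, hμ0, hμ1, ?_, ?_, ?_⟩
  · rw [hlam]; nlinarith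
  · rw [hlr, hL0c]
  · rw [hi0]
    have : 1 ≤ C := by
      have : (1 : ℝ) ≤ C := hC0.le
      exact_mod_cast this
    exact Nat.le_mul_of_pos_right _ this
  · have e1 : 5 * (i0 : ℝ) * lam / κ ≤ η / 8 := by
      refine le_trans (le_of_eq ?_) hm1.le
      rw [hi0c, hL0c, hlam, hK]
      ring
    have e2 : 120 / κ / Lg ≤ η / 8 := by
      rw [div_le_iff₀ hLg0]
      have : 120 / κ = η / 8 * X := by
        rw [hX]; field_simp; ring
      rw [this]
      gcongr
    have e3 : 32 * μ / ρ ^ 3 / Lg ≤ η / 8 := by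
      rw [div_div, div_le_iff₀ (by positivity)]
      nlinarith
    have e4 : 4 * μ / ρ ^ 2 ≤ η / 8 := by
      rw [div_le_iff₀ (by positivity)]
      nlinarith
    have e5 : 2 / ρ * (64 / (2 * ρ) * Real.exp (-(lam / (192 * (2 * ρ))))) ≤ η / 8 := by
      refine le_trans (le_of_eq ?_) hm2.le
      have h1 : lam / (192 * (2 * ρ)) = 3 * m := by
        rw [hlam]; field_simp; ring
      rw [h1]
      have h2 : Real.exp (-(3 * (m : ℝ))) = ρ ^ 3 := by
        rw [hρ, ← Real.exp_nat_mul]; congr 1; push_cast; ring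
      rw [h2]
      field_simp
    rw [add_div]
    linarith

end Q222.CV
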